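import Pool.Agent.N311.SAD.Main

/-!
# The super alternative Daugavet property and spaces with an unconditional basis

No infinite-dimensional Banach space (real or complex) which is isomorphic to a subspace of a
space with an unconditional basis has the super alternative Daugavet property.  In particular
(Q2 of MP_235f01_an) no Banach space with a 1-unconditional basis has it.

Idea of the proof.  The super ADP and the Baire category theorem give a norm-one functional `f`
whose modulus has supremum one on every coordinate box of the unit ball.  Let `p` be the absolute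
value functional of (an extension of) `f`.  Near-maximisers of `p` on small coordinate boxes around
`0` have `p`-small tails, hence `|f|` is almost one at each of them; but the averages
`(y ± y') / 2` of two near-maximisers with almost disjoint supports are again near-maximisers,
which contradicts the parallelogram law.
-/

set_option autoImplicit false

open Filter Topology

namespace Pool.Agent.Results.MP_235f01_an.NoEmbedUnconditional

/-- The super alternative Daugavet property: `X` is infinite-dimensional and for every `x` in the
unit sphere and every nonempty relatively weakly open subset `W ∩ B_X` of the closed unit ball,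
`sup_{y ∈ W ∩ B_X} max_{|θ| = 1} ‖x + θ y‖ = 2`. -/
def SuperADP (𝕜 X : Type*) [RCLike 𝕜] [NormedAddCommGroup X] [NormedSpace 𝕜 X] : Prop :=
  ¬ FiniteDimensional 𝕜 X ∧
  ∀ x : X, ‖x‖ = 1 → ∀ W : Set (WeakSpace 𝕜 X), IsOpen W →
    (∃ y : X, ‖y‖ ≤ 1 ∧ toWeakSpace 𝕜 X y ∈ W) →
      IsLUB {r : ℝ | ∃ y : X, ‖y‖ ≤ 1 ∧ toWeakSpace 𝕜 X y ∈ W ∧
        ∃ θ : 𝕜, ‖θ‖ = 1 ∧ r = ‖x + θ • y‖} 2

/-- If the Banach space `X` (real or complex) is isomorphic to a subspace of a normed space `Z`
with an unconditional Schauder basis, then `X` does not have the super alternative Daugavet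
property. -/
theorem result (𝕜 X Z : Type*) [RCLike 𝕜] [NormedAddCommGroup X] [NormedSpace 𝕜 X]
    [CompleteSpace X] [NormedAddCommGroup Z] [NormedSpace 𝕜 Z]
    (b : UnconditionalSchauderBasis ℕ 𝕜 Z) (T : X →L[𝕜] Z) (c : ℝ) (hc : 0 < c)
    (hT : ∀ x : X, c * ‖x‖ ≤ ‖T x‖) : ¬ SuperADP 𝕜 X := by
  rintro ⟨hfd, hsup⟩
  have hX : ∃ x : X, x ≠ 0 := by
    by_contra hcon
    push Not at hcon
    have : Subsingleton X := ⟨fun a b => by rw [hcon a, hcon b]⟩
    exact hfd inferInstance
  refine Pool.Agent.N311.SAD.abstract hX b.basis b.coord (fun z => b.expansion z) T hc hT ?_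
  intro x hx W hW hne ε hε
  have hl := hsup x hx W hW hne
  by_contra hcon
  push Not at hcon
  have h2 : (2 : ℝ) ≤ 2 - ε := by
    refine hl.2 ?_
    rintro r ⟨y, hy1, hy2, θ, hθ, rfl⟩
    exact hcon y hy1 hy2 θ hθ
  linarith

end Pool.Agent.Results.MP_235f01_an.NoEmbedUnconditional
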